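import Mathlib
import Pool.Agent.H17.Repl

namespace Pool.Agent.Results.MP_d3aff2_co.Infinite

open Quaternion

/-- Euclidean space `ℝ^n`. -/
abbrev E (n : ℕ) : Type := EuclideanSpace ℝ (Fin n)

/-- A `k`-colouring of `ℝ^n` is distinguishing for the Euclidean group. -/
def Distinguishing {n k : ℕ} (c : E n → Fin k) : Prop :=
  ∀ g : E n ≃ᵢ E n, (∀ x, c (g x) = c x) → g = IsometryEquiv.refl (E n)

/-- The distinguishing number of `ℝ^n` under all isometries. -/
noncomputable def distNum (n : ℕ) : ℕ :=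
  sInf {k : ℕ | 1 ≤ k ∧ ∃ c : E n → Fin k, Distinguishing c}

noncomputable def p : Fin 5 → E 4 :=
  ![!₂[0, 0, 0, 0], !₂[1, 0, 0, 0], !₂[0, 2, 0, 0], !₂[0, 0, 4, 0], !₂[0, 0, 0, 8]]

def M : Fin 5 → Fin 5 → ℕ :=
  ![![0, 1, 4, 16, 64], ![1, 0, 5, 17, 65], ![4, 5, 0, 20, 68], ![16, 17, 20, 0, 80],
    ![64, 65, 68, 80, 0]]

lemma dsq (x y : E 4) : dist x y ^ 2 = ∑ i, (x i - y i) ^ 2 := by
  rw [EuclideanSpace.dist_eq, Real.sq_sqrt (by positivity)]
  simp [Real.dist_eq]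

lemma pM (i j : Fin 5) : dist (p i) (p j) ^ 2 = M i j := by
  rw [dsq]
  fin_cases i <;> fin_cases j <;> simp [p, M, Fin.sum_univ_four] <;> norm_num

lemma two : ∃ c : E 4 → Fin 2, Distinguishing c := by
  classical
  refine ⟨fun x => if x ∈ Set.range p then 1 else 0, fun g hg => ?_⟩
  have h1 : ∀ i, ∃ j, p j = g (p i) := by
    intro i
    have := hg (p i)
    by_contra h
    have h2 : g (p i) ∉ Set.range p := h
    simp only [h2, if_false, Set.mem_range_self, if_true] at this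
    exact absurd this (by decide)
  choose σ hσ using h1
  have h2 : ∀ i j, M (σ i) (σ j) = M i j := by
    intro i j
    have : ((M (σ i) (σ j) : ℕ) : ℝ) = M i j := by rw [← pM, ← pM, hσ, hσ, g.dist_eq]
    exact_mod_cast this
  have h3 : ∀ i a b c : Fin 5, M a b = M i (i + 1) → M a c = M i (i + 2) → a = i := by decide
  have h4 : ∀ i, g (p i) = p i := fun i => by
    rw [← hσ, h3 i _ _ _ (h2 i (i + 1)) (h2 i (i + 2))]
  ext1 x
  have h5 : ∀ i, ∑ k, (g x k - p i k) ^ 2 = ∑ k, (x k - p i k) ^ 2 := fun i => by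
    rw [← dsq, ← dsq, ← g.dist_eq x, h4]
  have a0 := h5 0
  have a1 := h5 1
  have a2 := h5 2
  have a3 := h5 3
  have a4 := h5 4
  simp [p, Fin.sum_univ_four] at a0 a1 a2 a3 a4
  show g x = x
  ext k
  fin_cases k <;> simp <;> nlinarith

noncomputable def iso (u : unitary ℍ[ℝ]) : E 4 ≃ᵢ E 4 :=
  (linearIsometryEquivTuple.symm.toIsometryEquiv.trans
    ⟨MulAction.toPerm u, Isometry.of_dist_eq fun x y => by
      show dist ((u : ℍ[ℝ]) * x) ((u : ℍ[ℝ]) * y) = dist x y
      have h1 : ‖(u : ℍ[ℝ])‖ = 1 := CStarRing.norm_coe_unitary u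
      rw [dist_eq_norm, dist_eq_norm, ← mul_sub, norm_mul, h1, one_mul]⟩).trans
    linearIsometryEquivTuple.toIsometryEquiv

lemma iso_apply (u : unitary ℍ[ℝ]) (x : E 4) :
    iso u x = linearIsometryEquivTuple (u • linearIsometryEquivTuple.symm x) := rfl

lemma iso_ne (u : unitary ℍ[ℝ]) (hu : u ≠ 1) : iso u ≠ IsometryEquiv.refl (E 4) := by
  intro h
  apply hu
  have h1 : iso u (linearIsometryEquivTuple 1) = linearIsometryEquivTuple 1 := by rw [h]; rfl
  rw [iso_apply, LinearIsometryEquiv.symm_apply_apply] at h1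
  have h2 : (u : ℍ[ℝ]) * 1 = 1 := linearIsometryEquivTuple.injective h1
  exact Subtype.ext (by simpa using h2)

lemma bad : ∃ c : E 4 → Fin 2, ∀ c' : E 4 → Fin 2, {x | c' x ≠ c x}.Finite →
    ¬ Distinguishing c' := by
  obtain ⟨c, hc⟩ := Pool.Agent.H17.Repl.exists_bad
  refine ⟨fun x => c (linearIsometryEquivTuple.symm x), fun c' hf hd => ?_⟩
  obtain ⟨u, hu, h⟩ := hc (fun x => c' (linearIsometryEquivTuple x)) (by
    refine (hf.preimage (linearIsometryEquivTuple.injective.injOn)).subset fun x hx => ?_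
    simpa using hx)
  refine iso_ne u hu (hd _ fun x => ?_)
  rw [iso_apply, h, LinearIsometryEquiv.apply_symm_apply]

lemma distNum_four : distNum 4 = 2 := by
  apply IsLeast.csInf_eq
  refine ⟨⟨by norm_num, two⟩, ?_⟩
  rintro k ⟨hk, c, hc⟩
  by_contra h
  obtain rfl : k = 1 := by omega
  obtain ⟨c0, hc0⟩ := Pool.Agent.H17.Repl.exists_bad
  obtain ⟨u, hu, -⟩ := hc0 c0 (by simp)
  exact iso_ne u hu (hc _ fun x => Subsingleton.elim _ _)

theorem result : distNum 4 = 2 ∧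
    ∃ c : E 4 → Fin (distNum 4), ∀ c' : E 4 → Fin (distNum 4),
      {x | c' x ≠ c x}.Finite → ¬ Distinguishing c' := by
  refine ⟨distNum_four, ?_⟩
  rw [distNum_four]
  exact bad

end Pool.Agent.Results.MP_d3aff2_co.Infinite
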